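import Pool.Agent.L7h66.UA.Stm

set_option autoImplicit false

/-!
# Project UA, part PPP (helper23): infinitely many free classes give a Cantor family
-/

namespace Pool.Agent.L7h23.UA

open Set Function Filter Topology
open Pool.Agent.L7h66.UA
open Pool.Agent.L7h71.UN (Cl perm_of_injOn)
open Pool.Agent.H533R2.VO (RS RIso)

variable {T : Tower}

/-- saturated sets contain the atoms of their points -/
theorem sat_B {P₀ : Set ℕ} (h : Sat T P₀) {n v : ℕ} (hv : v ∈ P₀) (hn : v ∉ T.D n) :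
    T.B n v ⊆ P₀ := by
  by_cases h1 : ∀ m, v ∉ T.D m
  · exact h.2 v hv h1 n
  · push Not at h1
    obtain ⟨m, hm⟩ := h1
    rcases le_total m n with hmn | hmn
    · exact absurd (T.D_le hmn hm) hn
    · exact (T.B_D_le hmn hn hm).trans (h.1 m)

theorem sys_atom {I : Type} (pm : I → PM T) {P₀ : Set ℕ} (h : Sat T P₀) (n : ℕ)
    (w : WS T pm P₀) (hw : alS T pm P₀ n w ∉ T.D n) (v : ℕ)
    (hv : v ∈ T.B n (alS T pm P₀ n w)) :
    ∃ u, pcS T pm P₀ u = pcS T pm P₀ w ∧ alS T pm P₀ n u = v := by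
  rcases w with p | ⟨j, u⟩
  · exact ⟨Sum.inl ⟨v, sat_B h p.2 hw hv⟩, rfl, rfl⟩
  · have h1 : (pm j.1).ψ n (((pm j.1).ψ n).symm v) = v := Equiv.apply_symm_apply _ _
    have h2 : ((pm j.1).ψ n).symm v ∈ Cp T (pm j.1).ψ u.1 := ⟨n, by rw [h1]; exact hv⟩
    exact ⟨Sum.inr ⟨j, ⟨((pm j.1).ψ n).symm v, (pm j.1).coh.cp_trans (pm j.1).hw u.2 h2⟩⟩, rfl, h1⟩

theorem core (hSUB : S_SUB) (hENU : S_ENU) {a : ℕ → ℕ} (x : RS a) (T : Tower)
    (hT : ∀ n, T.G n = AutR x n) (F : Finset ℕ)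
    (W P : Type) [Countable W] (pc : W → P) (α : ℕ → W → ℕ)
    (A : (ℕ → Bool) → Set W) (hA : ∀ w, IsClopen {c | w ∈ A c})
    (hat : ∀ n w, α n w ∉ T.D n → ∀ v ∈ T.B n (α n w), ∃ u, pc u = pc w ∧ α n u = v)
    (hpc : ∀ c, ∀ w ∈ A c, ∀ u, pc u = pc w → u ∈ A c)
    (ψ : ℕ → (W ≃ ℕ)) (hψ : Coh T ψ) (hψ' : Cmp T pc α ψ)
    (φ : ∀ c, ℕ → (A c ≃ ℕ))
    (hφ : ∀ c, Cmp T (fun w : A c => pc w.1) (fun n w => α n w.1) (φ c))
    (P₀ : Set ℕ) (hP : Sat T P₀) (hF : ∀ f ∈ F, f ∈ P₀) (ι : P₀ → W)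
    (p₀ : P) (hι2 : ∀ v, pc (ι v) = p₀) (hι3 : ∀ n v, α n (ι v) = v.1)
    (hι4 : ∀ c v, ι v ∈ A c)
    (hinv : ∀ c d, MIso T (φ c) (φ d) → ∀ k, c k = true → d k = true) :
    ∃ g : (ℕ → Bool) → RS a, Continuous g ∧ (∀ c, ∃ y ∈ Cl F x, RIso y (g c)) ∧
      ∀ c d, RIso (g c) (g d) → c = d := by
  classical
  -- the structure on `W`
  let N : (i : ℕ) → (Fin (a i) → W) → Bool := fun i z => x i fun j => ψ (i + 1) (z j)
  have hGx : ∀ n, ∀ s ∈ T.S n, ∀ i, i < n → ∀ v : Fin (a i) → ℕ, x i (s ∘ v) = x i v := by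
    intro n s hs i hi v
    have h1 := T.S_le n hs
    rw [hT n] at h1
    exact h1 i hi v
  have hN : ∀ n i, i < n → ∀ z : Fin (a i) → W, N i z = x i fun j => ψ n (z j) := by
    intro n i hi z
    obtain ⟨s, hs, h1⟩ := hψ.le (show i + 1 ≤ n from hi)
    have h2 : (fun j => ψ (i + 1) (z j)) = s ∘ fun j => ψ n (z j) := by
      funext j
      exact h1 (z j)
    show x i (fun j => ψ (i + 1) (z j)) = _
    rw [h2, hGx (i + 1) s hs i (Nat.lt_succ_self i)]
  have hNA : ∀ c n i, i < n → ∀ z : Fin (a i) → A c,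
      N i (fun j => (z j).1) = x i fun j => φ c n (z j) := by
    intro c n i hi z
    obtain ⟨s, hs, h1⟩ := hSUB T W P pc α (A c) ψ (φ c) hat (hpc c) hψ' (hφ c) n
      (Finset.univ.image z)
    have h2 : (fun j => φ c n (z j)) = s ∘ fun j => ψ n (z j).1 := by
      funext j
      exact h1 (z j) (Finset.mem_image_of_mem _ (Finset.mem_univ j))
    rw [h2, hGx n s hs i hi]
    exact hN n i hi _
  -- the enumerations
  have hinf : ∀ c, (A c).Infinite := by
    intro c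
    have : Infinite (A c) := (φ c 0).infinite_iff.2 inferInstance
    exact infinite_coe_iff.1 this
  obtain ⟨ε, ε1, ε2, ε3⟩ := hENU W A hA hinf
  have hεA : ∀ c k, ε c k ∈ A c := fun c k => by
    rw [← ε2 c]
    exact ⟨k, rfl⟩
  let E : ∀ c, ℕ ≃ A c := fun c => Equiv.ofBijective (fun k => ⟨ε c k, hεA c k⟩)
    ⟨fun k l h => ε1 c (congrArg Subtype.val h), fun w => by
      have h1 : w.1 ∈ range (ε c) := by
        rw [ε2 c]
        exact w.2
      obtain ⟨k, hk⟩ := h1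
      exact ⟨k, Subtype.ext hk⟩⟩
  have hE : ∀ c k, (E c k).1 = ε c k := fun c k => rfl
  let g : (ℕ → Bool) → RS a := fun c i v => N i fun j => ε c (v j)
  have hgE : ∀ c i (v : Fin (a i) → ℕ), g c i v = N i fun j => (E c (v j)).1 := fun c i v => rfl
  refine ⟨g, ?_, ?_, ?_⟩
  · -- continuity
    refine continuous_pi fun i => continuous_pi fun v => ?_
    apply IsLocallyConstant.continuous
    rw [IsLocallyConstant.iff_eventually_eq]
    intro c
    have h1 : ∀ᶠ d in 𝓝 c, ∀ j : Fin (a i), ε d (v j) = ε c (v j) := by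
      rw [eventually_all]
      intro j
      exact (IsLocallyConstant.iff_eventually_eq _).1 (ε3 (v j)) c
    filter_upwards [h1] with d hd
    show N i (fun j => ε d (v j)) = N i fun j => ε c (v j)
    congr 1
    funext j
    exact hd j
  · -- copies over `F`
    intro c
    have hinjι : ∀ u v : P₀, ι u = ι v → u = v := by
      intro u v h
      have h1 := congrArg (α 0) h
      rw [hι3, hι3] at h1
      exact Subtype.ext h1
    let b : ℕ → ℕ := fun f => if h : f ∈ P₀ then (E c).symm ⟨ι ⟨f, h⟩, hι4 c _⟩ else 0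
    have hb : ∀ f (h : f ∈ P₀), b f = (E c).symm ⟨ι ⟨f, h⟩, hι4 c _⟩ := fun f h => dif_pos h
    obtain ⟨p, hp⟩ := perm_of_injOn b F (by
      intro u hu v hv huv
      rw [hb u (hF u hu), hb v (hF v hv)] at huv
      have h1 := congrArg Subtype.val ((E c).symm.injective huv)
      exact congrArg Subtype.val (hinjι _ _ h1))
    let τ : ℕ ≃ A c := p.trans (E c)
    have hτ : ∀ f (h : f ∈ F), τ f = ⟨ι ⟨f, hF f h⟩, hι4 c _⟩ := by
      intro f h
      show E c (p f) = _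
      rw [hp f h, hb f (hF f h), Equiv.apply_symm_apply]
    let y : RS a := fun i v => N i fun j => (τ (v j)).1
    refine ⟨y, ?_, p, fun i v => ?_⟩
    · -- the closure
      have key : ∀ n, ∃ e : Equiv.Perm ℕ, (∀ m ∈ F, e m = m) ∧
          ∀ i, i < n → ∀ v : Fin (a i) → ℕ, y i v = x i (e ∘ v) := by
        intro n
        let f : ℕ → ℕ := fun u => if h : u ∈ P₀ then φ c n ⟨ι ⟨u, h⟩, hι4 c _⟩ else u
        have hf : ∀ u (h : u ∈ P₀), f u = φ c n ⟨ι ⟨u, h⟩, hι4 c _⟩ := fun u h => dif_pos h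
        have hs : ∀ v ∈ P₀, v ∉ T.D n → ∃ s ∈ T.S n, ∀ u ∈ T.B n v, f u = s u := by
          intro v hv hvD
          obtain ⟨s, hs, h1⟩ := (hφ c).2 n ⟨ι ⟨v, hv⟩, hι4 c _⟩ (by
            show α n (ι ⟨v, hv⟩) ∉ T.D n
            rw [hι3]
            exact hvD)
          refine ⟨s, hs, fun u hu => ?_⟩
          have hu' : u ∈ P₀ := sat_B hP hv hvD hu
          have h2 := h1 ⟨ι ⟨u, hu'⟩, hι4 c _⟩ (by
            show pc (ι ⟨u, hu'⟩) = pc (ι ⟨v, hv⟩)
            rw [hι2, hι2]) (by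
            show α n (ι ⟨u, hu'⟩) ∈ T.B n (α n (ι ⟨v, hv⟩))
            rw [hι3, hι3]
            exact hu)
          rw [hf u hu', h2]
          show s (α n (ι ⟨u, hu'⟩)) = s u
          rw [hι3]
        obtain ⟨s, hsS, h1⟩ := T.S_ext n F f
          (fun v hv hvD => by
            rw [hf v (hF v hv), (hφ c).1 n _ (by
              show α n (ι ⟨v, _⟩) ∈ T.D n
              rw [hι3]
              exact hvD)]
            exact hι3 n _)
          (fun v hv hvD => hs v (hF v hv) hvD)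
          (fun v hv w hw hvD hwD hfw => by
            obtain ⟨s, hsS, h2⟩ := hs v (hF v hv) hvD
            have h3 : f v = s v := h2 v (T.B_self n v hvD)
            have h4 : s⁻¹ (f w) ∈ T.B n v := by
              rw [← T.B_S hsS hvD, ← h3]
              simpa using hfw
            have h5 := h2 _ h4
            have h6 : s (s⁻¹ (f w)) = f w := by simp
            have h7 : s⁻¹ (f w) ∈ P₀ := sat_B hP (hF v hv) hvD h4
            have h5' := (hf _ h7).symm.trans ((h5.trans h6).trans (hf w (hF w hw)))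
            have h8 := congrArg Subtype.val ((φ c n).injective h5')
            have h9 := congrArg Subtype.val (hinjι _ _ h8)
            rw [← show s⁻¹ (f w) = w from h9]
            exact h4)
        refine ⟨(τ.trans (φ c n)).trans (s⁻¹ : Equiv.Perm ℕ), fun m hm => ?_, fun i hi v => ?_⟩
        · show s⁻¹ (φ c n (τ m)) = m
          rw [hτ m hm, ← hf m (hF m hm), ← (h1 m hm).1]
          simp
        · show N i (fun j => (τ (v j)).1) = _
          rw [hNA c n i hi]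
          have h2 : (⇑((τ.trans (φ c n)).trans (s⁻¹ : Equiv.Perm ℕ)) ∘ v) =
              (⇑(s⁻¹ : Equiv.Perm ℕ)) ∘ fun j => φ c n (τ (v j)) := rfl
          rw [h2, hGx n s⁻¹ ((T.S n).inv_mem hsS) i hi]
      choose e he1 he2 using key
      refine mem_closure_of_tendsto (b := atTop) (f := fun n => (fun i v => x i (e n ∘ v) : RS a))
        ?_ (Eventually.of_forall fun n => ⟨e n, he1 n, fun _ _ => rfl⟩)
      rw [tendsto_pi_nhds]
      intro i
      rw [tendsto_pi_nhds]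
      intro v
      refine tendsto_const_nhds.congr' ?_
      filter_upwards [eventually_gt_atTop i] with n hn
      exact he2 n i hn v
    · -- the copy
      show N i (fun j => ε c (p (v j))) = N i fun j => (τ (v j)).1
      rfl
  · -- isomorphisms
    have main : ∀ c d, RIso (g c) (g d) → MIso T (φ c) (φ d) := by
      rintro c d ⟨σ, hσ⟩
      refine ⟨((E c).symm.trans σ).trans (E d), fun n => ?_⟩
      let h : Equiv.Perm ℕ :=
        ((φ c n).symm.trans (((E c).symm.trans σ).trans (E d))).trans (φ d n)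
      refine ⟨h, ?_, fun w => ?_⟩
      · rw [hT n]
        intro i hi v
        let t : Fin (a i) → ℕ := fun j => (E c).symm ((φ c n).symm (v j))
        have h1 : (h ∘ v) = fun j => φ d n (E d (σ (t j))) := rfl
        have h2 : v = fun j => φ c n (E c (t j)) := by
          funext j
          show v j = φ c n (E c ((E c).symm ((φ c n).symm (v j))))
          rw [Equiv.apply_symm_apply, Equiv.apply_symm_apply]
        rw [h1, ← hNA d n i hi]
        have h3 := hσ i t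
        rw [hgE, hgE] at h3
        have h4 : N i (fun j => (E d ((σ ∘ t) j)).1) = N i fun j => (E d (σ (t j))).1 := rfl
        rw [h4] at h3
        rw [h3, hNA c n i hi]
        exact congrArg _ h2.symm
      · show φ d n (E d (σ ((E c).symm w))) = φ d n (E d (σ ((E c).symm ((φ c n).symm (φ c n w)))))
        rw [Equiv.symm_apply_apply]
    intro c d hcd
    have hdc : RIso (g d) (g c) := by
      obtain ⟨σ, hσ⟩ := hcd
      refine ⟨σ⁻¹, fun i v => ?_⟩
      have h1 := hσ i (⇑σ⁻¹ ∘ v)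
      rw [← h1]
      congr 1
      funext j
      simp
    funext k
    rw [Bool.eq_iff_iff]
    exact ⟨hinv c d (main c d hcd) k, hinv d c (main d c hdc) k⟩

open Classical in
theorem s_PPP (hCEQ : S_CEQ) (hDEN : S_DEN) (hSYS : S_SYS) (hINV : S_INV) (hSUB : S_SUB)
    (hENU : S_ENU) : S_PPP := by
  intro a x T hT F γ₀ hfree hne
  have hid : ∀ f, (∀ n, f ∉ T.D n) → f ∉ Din T (fun _ => Equiv.refl ℕ) := by
    rintro f hf ⟨n, hn⟩
    exact hf n hn
  -- at most one class for each point of `F`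
  have hsub : ∀ f, {k | (∀ n, f ∉ T.D n) ∧
      CE T (γ₀ k).ψ (γ₀ k).w (fun _ => Equiv.refl ℕ) f}.Subsingleton := by
    rintro f k ⟨hf, hk⟩ l ⟨-, hl⟩
    apply hne
    have h1 := (hCEQ T ℕ ℕ ℕ (γ₀ l).ψ (fun _ => Equiv.refl ℕ) (fun _ => Equiv.refl ℕ) (γ₀ l).coh
      coh_refl coh_refl (γ₀ l).w f f (γ₀ l).hw (hid f hf) hl).1
    exact (hCEQ T ℕ ℕ ℕ (γ₀ k).ψ (fun _ => Equiv.refl ℕ) (γ₀ l).ψ (γ₀ k).coh
      coh_refl (γ₀ l).coh (γ₀ k).w f (γ₀ l).w (γ₀ k).hw (hid f hf) hk).2 (γ₀ l).hw h1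
  have hKfin : (⋃ f ∈ (F : Set ℕ), {k | (∀ n, f ∉ T.D n) ∧
      CE T (γ₀ k).ψ (γ₀ k).w (fun _ => Equiv.refl ℕ) f}).Finite :=
    F.finite_toSet.biUnion fun f _ => (hsub f).finite
  obtain ⟨N, hN⟩ := hKfin.bddAbove
  have hN' : ∀ k f, f ∈ F → (∀ n, f ∉ T.D n) →
      ¬ CE T (γ₀ (k + (N + 1))).ψ (γ₀ (k + (N + 1))).w (fun _ => Equiv.refl ℕ) f := by
    intro k f hf hfD hCE
    have h1 : k + (N + 1) ≤ N := hN (mem_biUnion (show f ∈ (F : Set ℕ) from hf) ⟨hfD, hCE⟩)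
    omega
  let γ : ℕ → PM T := fun k => γ₀ (k + (N + 1))
  have hγfree : ∀ k, FreeP T (γ k) := fun k => hfree _
  have hγne : ∀ k l, CE T (γ k).ψ (γ k).w (γ l).ψ (γ l).w → k = l := fun k l h => by
    have := hne _ _ h
    omega
  -- the set `P₀`
  let P₀ : Set ℕ := {v | (∃ m, v ∈ T.D m) ∨ ∃ f ∈ F, (∀ n, f ∉ T.D n) ∧ ∃ n, v ∈ T.B n f}
  have hSat : Sat T P₀ := by
    refine ⟨fun n v hv => Or.inl ⟨n, hv⟩, ?_⟩
    rintro v (⟨m, hm⟩ | ⟨f, hf, hfD, n, hn⟩) hvD m'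
    · exact absurd hm (hvD m)
    · intro u hu
      right
      refine ⟨f, hf, hfD, max n m', ?_⟩
      have h1 : v ∈ T.B (max n m') f := T.B_le (le_max_left n m') (hfD _) hn
      have h2 : u ∈ T.B (max n m') v := T.B_le (le_max_right n m') (hvD _) hu
      rwa [T.B_eq _ f (hfD _) v h1] at h2
  have hF : ∀ f ∈ F, f ∈ P₀ := by
    intro f hf
    by_cases h1 : ∃ m, f ∈ T.D m
    · exact Or.inl h1
    · push Not at h1
      exact Or.inr ⟨f, hf, h1, 0, T.B_self 0 f (h1 0)⟩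
  -- the other models
  let I' : Type := {p : ℕ × ℕ // ∃ q : PM T, (∃ s ∈ T.S p.1, q.ψ p.1 q.w = s p.2) ∧
    ∀ k, ¬ CE T (γ k).ψ (γ k).w q.ψ q.w} ⊕ {f : ℕ // f ∈ F ∧ ∀ n, f ∉ T.D n}
  have hI' : Countable I' := inferInstanceAs (Countable ({p : ℕ × ℕ // ∃ q : PM T,
    (∃ s ∈ T.S p.1, q.ψ p.1 q.w = s p.2) ∧
    ∀ k, ¬ CE T (γ k).ψ (γ k).w q.ψ q.w} ⊕ {f : ℕ // f ∈ F ∧ ∀ n, f ∉ T.D n}))
  let q : I' → PM T := Sum.elim (fun p => p.2.choose)
    fun f => ⟨fun _ => Equiv.refl ℕ, coh_refl, f.1, hid f.1 f.2.2⟩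
  have hq1 : ∀ p : {p : ℕ × ℕ // ∃ q : PM T, (∃ s ∈ T.S p.1, q.ψ p.1 q.w = s p.2) ∧
      ∀ k, ¬ CE T (γ k).ψ (γ k).w q.ψ q.w},
      (∃ s ∈ T.S p.1.1, (q (Sum.inl p)).ψ p.1.1 (q (Sum.inl p)).w = s p.1.2) ∧
      ∀ k, ¬ CE T (γ k).ψ (γ k).w (q (Sum.inl p)).ψ (q (Sum.inl p)).w := fun p => p.2.choose_spec
  have hq : ∀ k i, ¬ CE T (γ k).ψ (γ k).w (q i).ψ (q i).w := by
    intro k i
    rcases i with p | f
    · exact (hq1 p).2 k
    · exact hN' k f.1 f.2.1 f.2.2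
  have hP' : ∀ v ∈ P₀, (∀ n, v ∉ T.D n) →
      ∃ i, CE T (q i).ψ (q i).w (fun _ => Equiv.refl ℕ) v := by
    rintro v (⟨m, hm⟩ | ⟨f, hf, hfD, n, hn⟩) hvD
    · exact absurd hm (hvD m)
    · refine ⟨Sum.inr ⟨f, hf, hfD⟩, f, ?_, Ty.refl _ _⟩
      exact cp_symm (hid f hfD) ⟨n, hn⟩
  have hden : ∀ n v, v ∉ T.D n →
      {d | (∃ m, d ∈ T.D m) ∧ ∃ s ∈ T.S n, d = s v}.Infinite ∨
      {k | ∃ u ∈ Cp T (γ k).ψ (γ k).w, ∃ s ∈ T.S n, (γ k).ψ n u = s v}.Infinite ∨
      (∃ k, {u | u ∈ Cp T (γ k).ψ (γ k).w ∧ ∃ s ∈ T.S n, (γ k).ψ n u = s v}.Infinite) ∨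
      ∃ i, ∃ u ∈ Cp T (q i).ψ (q i).w, ∃ s ∈ T.S n, (q i).ψ n u = s v := by
    intro n v hv
    rcases hDEN T γ hγfree n v hv with h | h | h | h
    · exact Or.inl h
    · exact Or.inr (Or.inl h)
    · exact Or.inr (Or.inr (Or.inl h))
    · refine Or.inr (Or.inr (Or.inr ⟨Sum.inl ⟨(n, v), h⟩, (q (Sum.inl ⟨(n, v), h⟩)).w,
        cp_self (q (Sum.inl ⟨(n, v), h⟩)).hw, ?_⟩))
      exact (hq1 ⟨(n, v), h⟩).1
  choose φ hφ1 hφ2 using hSYS T I' γ q P₀ hSat hden
  -- the big model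
  let c₀ : ℕ → Bool := fun _ => false
  have h0 : ∀ w, w ∈ AcS T γ q P₀ c₀ := fun w k t _ h => absurd h (by simp [c₀])
  let e₀ : WS T (Sum.elim γ q) P₀ ≃ AcS T γ q P₀ c₀ := (Equiv.subtypeUnivEquiv h0).symm
  let ψ : ℕ → (WS T (Sum.elim γ q) P₀ ≃ ℕ) := fun n => e₀.trans (φ c₀ n)
  have hψ : Coh T ψ := by
    intro n
    obtain ⟨s, hs, h⟩ := hφ1 c₀ n
    exact ⟨s, hs, fun w => h (e₀ w)⟩
  have hψ' : Cmp T (pcS T (Sum.elim γ q) P₀) (alS T (Sum.elim γ q) P₀) ψ := by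
    refine ⟨fun n w hw => (hφ2 c₀).1 n (e₀ w) hw, fun n w hw => ?_⟩
    obtain ⟨s, hs, h⟩ := (hφ2 c₀).2 n (e₀ w) hw
    exact ⟨s, hs, fun u hu hu' => h (e₀ u) hu hu'⟩
  have hclopen : ∀ w, IsClopen {c | w ∈ AcS T γ q P₀ c} := by
    intro w
    have hiff : ∀ c, w ∈ AcS T γ q P₀ c ↔ ∀ k t, pcS T (Sum.elim γ q) P₀ w =
        some (Sum.inl k, t) → c k = true → t ≤ k := fun c => Iff.rfl
    rcases hw : pcS T (Sum.elim γ q) P₀ w with _ | ⟨k | i, t⟩
    · have h1 : {c | w ∈ AcS T γ q P₀ c} = univ := by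
        ext c
        simp only [mem_ofPred_eq, mem_univ, iff_true]
        rw [hiff, hw]
        intro k t h
        exact absurd h (by simp)
      rw [h1]
      exact isClopen_univ
    · by_cases htk : t ≤ k
      · have h1 : {c | w ∈ AcS T γ q P₀ c} = univ := by
          ext c
          simp only [mem_ofPred_eq, mem_univ, iff_true]
          rw [hiff, hw]
          intro k' t' h _
          simp only [Option.some.injEq, Prod.mk.injEq, Sum.inl.injEq] at h
          omega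
        rw [h1]
        exact isClopen_univ
      · have h1 : {c | w ∈ AcS T γ q P₀ c} = (fun c : ℕ → Bool => c k) ⁻¹' {false} := by
          ext c
          simp only [mem_ofPred_eq, mem_preimage, mem_singleton_iff]
          rw [hiff, hw]
          constructor
          · intro h
            by_contra hc
            exact htk (h k t rfl (by simpa using hc))
          · intro hc k' t' h hk'
            simp only [Option.some.injEq, Prod.mk.injEq, Sum.inl.injEq] at h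
            rw [← h.1, hc] at hk'
            exact absurd hk' (by simp)
        rw [h1]
        exact (isClopen_discrete _).preimage (continuous_apply k)
    · have h1 : {c | w ∈ AcS T γ q P₀ c} = univ := by
        ext c
        simp only [mem_ofPred_eq, mem_univ, iff_true]
        rw [hiff, hw]
        intro k t h
        exact absurd h (by simp)
      rw [h1]
      exact isClopen_univ
  exact core hSUB hENU x T hT F (WS T (Sum.elim γ q) P₀) (Option ((ℕ ⊕ I') × ℕ))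
    (pcS T (Sum.elim γ q) P₀) (alS T (Sum.elim γ q) P₀) (AcS T γ q P₀) hclopen
    (sys_atom (Sum.elim γ q) hSat)
    (fun c w hw u hu k t h => hw k t (hu ▸ h))
    ψ hψ hψ' φ hφ2 P₀ hSat hF Sum.inl none (fun _ => rfl) (fun _ _ => rfl)
    (fun c v k t h => absurd h (by simp [pcS]))
    (fun c d h => hINV T I' γ q P₀ hSat hγne hq hP' c d (φ c) (φ d) (hφ1 c) (hφ1 d) (hφ2 c)
      (hφ2 d) h)

end Pool.Agent.L7h23.UA
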