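import Pool.Agent.L7h66.UA.Stm

set_option autoImplicit false

/-!
# Project UA, part TOW (helper23): the tower of a sequence of cellular groups
-/

namespace Pool.Agent.L7h23.UA

open Set Function
open Pool.Agent.L7h66.UA
open Pool.Agent.L7h71.UN (Closed Good Sw IsSwap)

variable {G G' : Subgroup (Equiv.Perm ℕ)}

theorem fs_one : FS G 1 :=
  ⟨G.one_mem, by
    have : {v : ℕ | (1 : Equiv.Perm ℕ) v ≠ v} = ∅ := by
      ext v
      simp
    rw [this]
    exact finite_empty, fun v _ => rfl⟩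

theorem fs_mul {g h : Equiv.Perm ℕ} (hg : FS G g) (hh : FS G h) : FS G (g * h) := by
  refine ⟨G.mul_mem hg.1 hh.1, (hg.2.1.union hh.2.1).subset fun v hv => ?_, fun v hv => ?_⟩
  · by_contra hcon
    simp only [mem_union, mem_ofPred_eq, not_or, not_not] at hcon
    apply hv
    rw [Equiv.Perm.mul_apply, hcon.2, hcon.1]
  · rw [Equiv.Perm.mul_apply, hh.2.2 v hv, hg.2.2 v hv]

theorem fs_inv {g : Equiv.Perm ℕ} (hg : FS G g) : FS G g⁻¹ := by
  refine ⟨G.inv_mem hg.1, hg.2.1.subset fun v hv hcon => ?_, fun v hv => ?_⟩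
  · apply hv
    rw [Equiv.Perm.inv_eq_iff_eq]
    exact hcon.symm
  · rw [Equiv.Perm.inv_eq_iff_eq]
    exact (hg.2.2 v hv).symm

theorem fs_mem_gs {g : Equiv.Perm ℕ} (hg : FS G g) : g ∈ GS G := fun _ => ⟨g, hg, fun _ _ => rfl⟩

/-- the group `GS G` -/
def gsG (G : Subgroup (Equiv.Perm ℕ)) : Subgroup (Equiv.Perm ℕ) where
  carrier := GS G
  mul_mem' := by
    intro s t hs ht Z
    obtain ⟨h, h1, h2⟩ := ht Z
    obtain ⟨g, g1, g2⟩ := hs (Z.image t)
    refine ⟨g * h, fs_mul g1 h1, fun z hz => ?_⟩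
    rw [Equiv.Perm.mul_apply, Equiv.Perm.mul_apply, h2 z hz, g2 _ (Finset.mem_image_of_mem _ hz)]
  one_mem' := fs_mem_gs fs_one
  inv_mem' := by
    intro s hs Z
    obtain ⟨g, g1, g2⟩ := hs (Z.image ⇑s⁻¹)
    refine ⟨g⁻¹, fs_inv g1, fun z hz => ?_⟩
    have := g2 _ (Finset.mem_image_of_mem _ hz)
    rw [Equiv.Perm.inv_eq_iff_eq, this]
    simp

theorem mem_gsG {s : Equiv.Perm ℕ} : s ∈ gsG G ↔ s ∈ GS G := Iff.rfl

theorem gsG_le (hG : Closed G) : gsG G ≤ G := by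
  intro s hs
  refine hG s fun Z => ?_
  obtain ⟨g, g1, g2⟩ := hs Z
  exact ⟨g, g1.1, g2⟩

theorem good_le (h : G' ≤ G) {n : ℕ} {b : Fin n → ℕ} (hb : Good G' b) : Good G b := by
  refine ⟨hb.1, fun Z => ?_⟩
  obtain ⟨b', h1, h2, g, hg, h3⟩ := hb.2 Z
  exact ⟨b', h1, h2, g, h hg, h3⟩

theorem gd_mono (h : G' ≤ G) : GD G ⊆ GD G' := fun _ hv n b hb => hv n b (good_le h hb)

theorem fs_le (h : G' ≤ G) {g : Equiv.Perm ℕ} (hg : FS G' g) : FS G g :=
  ⟨h hg.1, hg.2.1, fun v hv => hg.2.2 v (gd_mono h hv)⟩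

theorem gs_le (h : G' ≤ G) : gsG G' ≤ gsG G := by
  intro s hs Z
  obtain ⟨g, g1, g2⟩ := hs Z
  exact ⟨g, fs_le h g1, g2⟩

theorem gs_gd {s : Equiv.Perm ℕ} (hs : s ∈ gsG G) {v : ℕ} (hv : v ∈ GD G) : s v = v := by
  obtain ⟨g, g1, g2⟩ := hs {v}
  rw [← g2 v (Finset.mem_singleton_self v), g1.2.2 v hv]

open Classical in
theorem s_TOW (h1 : S_FRA) (h2 : S_FRB) (h3 : S_FRC) : S_TOW := by
  intro G hanti hcl hcell
  have f1 : ∀ n v, v ∉ GD (G n) → ∃ (k : ℕ) (b : Fin k → ℕ), Good (G n) b ∧ range b = GB (G n) v :=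
    fun n => (h1 (G n) (hcl n)).1
  have f2 : ∀ n v, v ∉ GD (G n) → ∀ w ∈ GB (G n) v, w ∉ GD (G n) ∧ GB (G n) w = GB (G n) v :=
    fun n => (h1 (G n) (hcl n)).2.1
  have f3 : ∀ n, ∀ g ∈ G n, ∀ v, g v ∈ GD (G n) ↔ v ∈ GD (G n) :=
    fun n g hg v => ((h1 (G n) (hcl n)).2.2 g hg v).1
  have f4 : ∀ n, ∀ g ∈ G n, ∀ v w, g w ∈ GB (G n) (g v) ↔ w ∈ GB (G n) v :=
    fun n g hg v => ((h1 (G n) (hcl n)).2.2 g hg v).2
  have hself : ∀ n v, v ∈ GB (G n) v := fun n v k b _ hv => hv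
  have hB : ∀ n v, v ∉ GD (G n) → (if v ∉ GD (G n) then GB (G n) v else ∅) = GB (G n) v :=
    fun n v hv => if_pos hv
  have hsle : ∀ n, ∀ s ∈ gsG (G n), s ∈ G n := fun n s hs => gsG_le (hcl n) hs
  refine ⟨{
    G := G
    S := fun n => gsG (G n)
    D := fun n => GD (G n)
    B := fun n v => if v ∉ GD (G n) then GB (G n) v else ∅
    G_anti := hanti
    S_anti := fun n => gs_le (hanti n)
    S_le := fun n => gsG_le (hcl n)
    S_conj := ?_
    D_fin := fun n => (h3 (G n) (hcell n)).1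
    D_mono := fun n => gd_mono (hanti n)
    D_G := f3
    S_D := fun n s hs v hv => gs_gd hs hv
    B_fin := ?_
    B_self := ?_
    B_not := ?_
    B_eq := ?_
    B_mono := ?_
    B_D := ?_
    B_G := ?_
    S_ext := ?_
    S_loc := ?_
    S_orb := ?_
    S_inf := ?_ }, rfl⟩
  · -- S_conj
    intro n g hg s hs Z
    obtain ⟨t, t1, t2⟩ := hs (Z.image ⇑g⁻¹)
    refine ⟨g * t * g⁻¹, ⟨(G n).mul_mem ((G n).mul_mem hg t1.1) ((G n).inv_mem hg), ?_, ?_⟩, ?_⟩
    · refine (t1.2.1.image g).subset fun v hv => ⟨g⁻¹ v, ?_, by simp⟩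
      intro hcon
      apply hv
      rw [Equiv.Perm.mul_apply, Equiv.Perm.mul_apply, hcon]
      simp
    · intro v hv
      have h5 : g⁻¹ v ∈ GD (G n) := (f3 n g⁻¹ ((G n).inv_mem hg) v).2 hv
      rw [Equiv.Perm.mul_apply, Equiv.Perm.mul_apply, t1.2.2 _ h5]
      simp
    · intro z hz
      rw [Equiv.Perm.mul_apply, Equiv.Perm.mul_apply, Equiv.Perm.mul_apply, Equiv.Perm.mul_apply,
        t2 _ (Finset.mem_image_of_mem _ hz)]
  · -- B_fin
    intro n v
    by_cases hv : v ∉ GD (G n)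
    · rw [hB n v hv]
      obtain ⟨k, b, _, hb⟩ := f1 n v hv
      rw [← hb]
      exact finite_range b
    · rw [if_neg hv]
      exact finite_empty
  · -- B_self
    intro n v hv
    rw [hB n v hv]
    exact hself n v
  · -- B_not
    intro n v hv w hw
    rw [hB n v hv] at hw
    exact (f2 n v hv w hw).1
  · -- B_eq
    intro n v hv w hw
    rw [hB n v hv] at hw
    rw [hB n v hv, hB n w (f2 n v hv w hw).1]
    exact (f2 n v hv w hw).2
  · -- B_mono
    intro n v hv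
    have hv0 : v ∉ GD (G n) := fun h => hv (gd_mono (hanti n) h)
    rw [hB n v hv0, hB (n + 1) v hv]
    obtain ⟨k, b, hb, hr⟩ := f1 (n + 1) v hv
    intro u hu
    rw [← hr]
    refine hu k b (good_le (hanti n) hb) ?_
    rw [hr]
    exact hself _ v
  · -- B_D
    intro n v hv hv' u hu
    rw [hB n v hv] at hu
    by_contra hcon
    obtain ⟨k, b, hb, hr⟩ := f1 (n + 1) u hcon
    have h5 : v ∈ GB (G n) u := by
      rw [(f2 n v hv u hu).2]
      exact hself n v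
    have h6 : v ∈ range b := h5 k b (good_le (hanti n) hb) (by rw [hr]; exact hself _ u)
    exact hv' k b hb h6
  · -- B_G
    intro n g hg v hv w
    have hgv : g v ∉ GD (G n) := fun h => hv ((f3 n g hg v).1 h)
    rw [hB n v hv, hB n (g v) hgv]
    exact f4 n g hg v w
  · -- S_ext
    intro n Z f e1 e2 e3
    obtain ⟨g, g1, g2⟩ := h2 (G n) (hcl n) Z f e1
      (fun v hv hvD => by
        obtain ⟨s, s1, s2⟩ := e2 v hv hvD
        rw [hB n v hvD] at s2
        exact ⟨s, s1, s2⟩)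
      (fun v hv w hw hvD hwD hfw => by
        obtain ⟨s, s1, s2⟩ := e2 v hv hvD
        rw [hB n v hvD] at s2
        have h5 : f v = s v := s2 v (hself n v)
        have h6 : f v ∉ GD (G n) := by
          rw [h5]
          exact fun h => hvD ((f3 n s (hsle n s s1) v).1 h)
        have := e3 v hv w hw hvD hwD (by rw [hB n _ h6]; exact hfw)
        rwa [hB n v hvD] at this)
    refine ⟨g, fs_mem_gs g1, fun v hv => ⟨(g2 v hv).1, fun hvD => ?_⟩⟩
    rw [hB n v hvD]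
    exact (g2 v hv).2 hvD
  · -- S_loc
    intro n h e1 e2 Z
    have e2' : ∀ v, v ∉ GD (G n) → ∃ s ∈ gsG (G n), ∀ u ∈ GB (G n) v, h u = s u := by
      intro v hv
      obtain ⟨s, s1, s2⟩ := e2 v hv
      rw [hB n v hv] at s2
      exact ⟨s, s1, s2⟩
    obtain ⟨g, g1, g2⟩ := h2 (G n) (hcl n) Z h (fun v _ hv => e1 v hv)
      (fun v _ hvD => e2' v hvD)
      (fun v _ w _ hvD hwD hfw => by
        obtain ⟨s, s1, s2⟩ := e2' v hvD
        have h5 : h v = s v := s2 v (hself n v)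
        have h6 : s⁻¹ (h w) ∈ GB (G n) v := by
          rw [← f4 n s (hsle n s s1) v, ← h5]
          simpa using hfw
        have h7 := s2 _ h6
        have h8 : s (s⁻¹ (h w)) = h w := by simp
        rw [h8] at h7
        rw [← h.injective h7]
        exact h6)
    exact ⟨g, g1, fun z hz => (g2 z hz).1⟩
  · -- S_orb
    intro n
    obtain ⟨R, hR⟩ := (h3 (G n) (hcell n)).2
    refine ⟨R, fun v => ?_⟩
    obtain ⟨g, g1, g2⟩ := hR v
    exact ⟨g, fs_mem_gs g1, g2⟩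
  · -- S_inf
    intro n v hv
    obtain ⟨k, b, hb, hr⟩ := f1 n v hv
    have hvr : v ∈ range b := by
      rw [hr]
      exact hself n v
    obtain ⟨i, hi⟩ := hvr
    intro hfin
    obtain ⟨b', b1, b2, g, hg, g1, g2, g3⟩ := hb.2 hfin.toFinset
    apply b1 i
    rw [Finite.mem_toFinset]
    refine ⟨g, fs_mem_gs ⟨hg, ?_, ?_⟩, by rw [← hi, g1]⟩
    · refine ((finite_range b).union (finite_range b')).subset fun x hx => ?_
      by_contra hcon
      simp only [mem_union, mem_range, not_or, not_exists] at hcon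
      exact hx (g3 x (fun j h => hcon.1 j h.symm) (fun j h => hcon.2 j h.symm))
    · intro x hx
      refine g3 x (fun j h => ?_) (fun j h => ?_)
      · exact hx k b hb ⟨j, h.symm⟩
      · have h5 : b j ∈ GD (G n) := by
          rw [← g2 j, f3 n g hg, ← h]
          exact hx
        exact h5 k b hb ⟨j, rfl⟩

end Pool.Agent.L7h23.UA
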